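import Mathlib
import Pool.Agent.Y180.SF.Iter

set_option autoImplicit false

/-!
# In which projective spaces is stable freeness determined by the intersection lattice?

Stable freeness of arrangements in `ℙ^n` is determined by the intersection lattice if and only if
`n ≤ 3` (over every field of characteristic zero). For every `n ≥ 4` there are two arrangements of
`n + 7` hyperplanes in `ℙ^n` with isomorphic intersection lattices, the first stably free and the
second not. Moreover the cohomology modules `H^i_*` of the sheaves of logarithmic vector fields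
vanish for both arrangements for `1 ≤ i ≤ n - 3`, while `H^{n-2}_*` vanishes for the first
arrangement and not for the second one.

The case `n = 4` (without the statement on `H^1_*`) is the starting result `StableFreeness`. The
arrangements are iterated products with points; the new part is that the first (respectively last)
nonvanishing cohomology moves up by one degree under these products.
-/

namespace Pool.Agent.Results.MP_48904d_ag.AllDimensions

open Pool.Agent.H158R3 Pool.Agent.H472R3.SF Pool.Agent.Y180.SF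

/-- the pairs of arrangements in `ℙ^(j+4)` -/
theorem pairs (K : Type) [Field K] [CharZero K] (j : ℕ) :
    ∃ A₁ A₂ : Fin (j + 4 + 7) → Fin (j + 4 + 1) → K, IsArrangement A₁ ∧ IsArrangement A₂ ∧
      Nonempty (Lattice A₁ ≃o Lattice A₂) ∧
      (∀ i, 1 ≤ i → i + 2 ≤ j + 4 → CohomologyVanishes (D0 A₁)
        (MvPolynomial.X : Fin (j + 4 + 1) → MvPolynomial (Fin (j + 4 + 1)) K) i) ∧
      (∀ i, 1 ≤ i → i + 3 ≤ j + 4 → CohomologyVanishes (D0 A₂)
        (MvPolynomial.X : Fin (j + 4 + 1) → MvPolynomial (Fin (j + 4 + 1)) K) i) ∧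
      ¬ CohomologyVanishes (D0 A₂)
        (MvPolynomial.X : Fin (j + 4 + 1) → MvPolynomial (Fin (j + 4 + 1)) K) (j + 2) := by
  have h1 : IsArrangement (toK K M1) := arr1
  have h2 : IsArrangement (toK K M2) := arr2
  have hg : ∀ p < 4, Van (XL K 5) (D0 (pt (toK K M1))) p := by
    refine good_base _ h1 ?_
    rw [gad_ag]
    exact pd_ag
  have hb : (∀ p < 3, Van (XL K 5) (D0 (pt (toK K M2))) p) ∧
      ¬ Van (XL K 5) (D0 (pt (toK K M2))) 3 := by
    have h2' := h2
    rw [gad_ab] at h2' ⊢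
    exact bad_base h2'
  refine ⟨pt (it (toK K M1) j), pt (it (toK K M2) j), isArrangement_pt (it_arr _ h1 j),
    isArrangement_pt (it_arr _ h2 j), it_lattice indep_iff j, ?_, ?_, ?_⟩
  · intro i hi hi2
    obtain ⟨i, rfl⟩ := Nat.exists_eq_succ_of_ne_zero (by omega : i ≠ 0)
    exact (cohomologyVanishes_iff (XX K (j + 4 + 1)) (D0 (pt (it (toK K M1) j))) i).2
      (it_up _ h1 4 (by omega) hg j (i + 2) (by omega))
  · intro i hi hi2
    obtain ⟨i, rfl⟩ := Nat.exists_eq_succ_of_ne_zero (by omega : i ≠ 0)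
    exact (cohomologyVanishes_iff (XX K (j + 4 + 1)) (D0 (pt (it (toK K M2) j))) i).2
      (it_up _ h2 3 (by omega) hb.1 j (i + 2) (by omega))
  · intro h
    exact it_down _ h2 hb.1 hb.2 j
      ((cohomologyVanishes_iff (XX K (j + 4 + 1)) (D0 (pt (it (toK K M2) j))) (j + 1)).1 h)

/-- **Result.** Let `K` be a field of characteristic zero.
(1) Stable freeness of arrangements in `ℙ^n` is determined by the intersection lattice exactly for
`n ≤ 3`.
(2) For every `n ≥ 4` there are arrangements `A₁`, `A₂` of `n + 7` hyperplanes in `ℙ^n` with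
isomorphic intersection lattices such that `A₁` is stably free and `A₂` is not; `H^i_*` of the
sheaf of logarithmic vector fields of `A₁` vanishes for `1 ≤ i ≤ n - 2`, that of `A₂` for
`1 ≤ i ≤ n - 3` but not for `i = n - 2`. -/
theorem result (K : Type) [Field K] [CharZero K] :
    (∀ n : ℕ, (∀ (d d' : ℕ) (A₁ : Fin d → Fin (n + 1) → K) (A₂ : Fin d' → Fin (n + 1) → K),
        IsArrangement A₁ → IsArrangement A₂ → Nonempty (Lattice A₁ ≃o Lattice A₂) →
        StablyFree A₁ → StablyFree A₂) ↔ n ≤ 3) ∧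
    ∀ n : ℕ, 4 ≤ n → ∃ A₁ A₂ : Fin (n + 7) → Fin (n + 1) → K,
      IsArrangement A₁ ∧ IsArrangement A₂ ∧ Nonempty (Lattice A₁ ≃o Lattice A₂) ∧
      StablyFree A₁ ∧ ¬ StablyFree A₂ ∧
      (∀ i, 1 ≤ i → i ≤ n - 2 → CohomologyVanishes (D0 A₁)
        (MvPolynomial.X : Fin (n + 1) → MvPolynomial (Fin (n + 1)) K) i) ∧
      (∀ i, 1 ≤ i → i ≤ n - 3 → CohomologyVanishes (D0 A₂)
        (MvPolynomial.X : Fin (n + 1) → MvPolynomial (Fin (n + 1)) K) i) ∧
      ¬ CohomologyVanishes (D0 A₂)
        (MvPolynomial.X : Fin (n + 1) → MvPolynomial (Fin (n + 1)) K) (n - 2) := by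
  have key : ∀ n : ℕ, 4 ≤ n → ∃ A₁ A₂ : Fin (n + 7) → Fin (n + 1) → K,
      IsArrangement A₁ ∧ IsArrangement A₂ ∧ Nonempty (Lattice A₁ ≃o Lattice A₂) ∧
      StablyFree A₁ ∧ ¬ StablyFree A₂ ∧
      (∀ i, 1 ≤ i → i ≤ n - 2 → CohomologyVanishes (D0 A₁)
        (MvPolynomial.X : Fin (n + 1) → MvPolynomial (Fin (n + 1)) K) i) ∧
      (∀ i, 1 ≤ i → i ≤ n - 3 → CohomologyVanishes (D0 A₂)
        (MvPolynomial.X : Fin (n + 1) → MvPolynomial (Fin (n + 1)) K) i) ∧
      ¬ CohomologyVanishes (D0 A₂)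
        (MvPolynomial.X : Fin (n + 1) → MvPolynomial (Fin (n + 1)) K) (n - 2) := by
    intro n hn
    obtain ⟨j, rfl⟩ : ∃ j, n = j + 4 := ⟨n - 4, by omega⟩
    obtain ⟨A₁, A₂, h1, h2, h3, h4, h5, h6⟩ := pairs K j
    have e : j + 4 - 2 = j + 2 := by omega
    refine ⟨A₁, A₂, h1, h2, h3, fun i hi hi2 => h4 i (by omega) hi2, fun h => h6 ?_,
      fun i hi hi2 => h4 i hi (by omega), fun i hi hi2 => h5 i hi (by omega), ?_⟩
    · exact h (j + 2) (by omega) (by omega)
    · rw [e]
      exact h6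
  refine ⟨fun n => ⟨fun h => ?_, fun hn d d' A₁ A₂ _ _ _ _ i hi hi2 => by omega⟩, key⟩
  by_contra hn
  obtain ⟨A₁, A₂, h1, h2, h3, h4, h5, _⟩ := key n (by omega)
  exact h5 (h _ _ A₁ A₂ h1 h2 h3 h4)

end Pool.Agent.Results.MP_48904d_ag.AllDimensions
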